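import Pool.Agent.R278.UD.NonHom

/-!
# The space
-/

open Set Cardinal Function
open scoped ENNReal

namespace Pool.Agent.R278.UD

universe u

/-- For every infinite `I` there is a Banach space of universal disposition for spaces with a
dense family indexed by `I` whose isometry group is not transitive on the unit sphere. -/
theorem exists_space (I : Type u) [Infinite I] : ∃ (X : Type u) (_ : NormedAddCommGroup X)
    (_ : NormedSpace ℝ X) (_ : CompleteSpace X),
    (∀ (A E : Type u) [NormedAddCommGroup A] [NormedSpace ℝ A] [NormedAddCommGroup E]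
      [NormedSpace ℝ E] (i : A →ₗᵢ[ℝ] E) (e : A →ₗᵢ[ℝ] X) (dA : I → A) (_ : DenseRange dA)
      (dE : I → E) (_ : DenseRange dE), ∃ g : E →ₗᵢ[ℝ] X, ∀ a, g (i a) = e a) ∧
    ∃ x y : X, ‖x‖ = 1 ∧ ‖y‖ = 1 ∧ ∀ h : X ≃ₗᵢ[ℝ] X, h x ≠ y := by
  obtain ⟨O, W, i1, i2, B, hB⟩ := exists_rich I
  refine ⟨XS B, inferInstance, inferInstance, inferInstance, ?_, ?_⟩
  · intro A E _ _ _ _ i e dA hdA dE hdE
    exact univ_disp B hB i e hdA hdE
  · obtain ⟨x, hx1, hx2⟩ := exists_PP B hB
    obtain ⟨y, hy1, hy2⟩ := exists_not_PP B hB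
    refine ⟨x, y, hx1, hy1, ?_⟩
    rintro h rfl
    exact hy2 (PP_iso h hx2)

theorem exists_denseRange {I A : Type u} [Infinite I] [TopologicalSpace A] [Nonempty A]
    {D : Set A} (hD : Dense D) (hc : #D ≤ #I) : ∃ d : I → A, DenseRange d := by
  have : Nonempty D := hD.nonempty.to_subtype
  obtain ⟨f, hf⟩ := exists_surj (α := I) (β := D) hc
  refine ⟨fun n => (f n : A), ?_⟩
  have h : Set.range (fun n => (f n : A)) = D := by
    ext a
    constructor
    · rintro ⟨n, rfl⟩
      exact (f n).2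
    · intro ha
      obtain ⟨n, hn⟩ := hf ⟨a, ha⟩
      exact ⟨n, by simp only [hn]⟩
  rw [DenseRange, h]
  exact hD

theorem exists_denseRange_fd {I A : Type u} [Infinite I] [NormedAddCommGroup A] [NormedSpace ℝ A]
    (hA : FiniteDimensional ℝ A) : ∃ d : I → A, DenseRange d := by
  have : ProperSpace A := FiniteDimensional.proper_real A
  obtain ⟨D, hD1, hD2⟩ := TopologicalSpace.exists_countable_dense A
  exact exists_denseRange hD2 ((Cardinal.le_aleph0_iff_set_countable.2 hD1).trans
    (Cardinal.aleph0_le_mk I))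

/-- The isometry between the lines spanned by two unit vectors. -/
theorem exists_line_iso {X : Type u} [NormedAddCommGroup X] [NormedSpace ℝ X] {x y : X}
    (hx : ‖x‖ = 1) (hy : ‖y‖ = 1) :
    ∃ h : (Submodule.span ℝ {x}) ≃ₗᵢ[ℝ] (Submodule.span ℝ {y}),
      ((h ⟨x, Submodule.mem_span_singleton_self x⟩ : Submodule.span ℝ {y}) : X) = y := by
  refine ⟨(LinearIsometryEquiv.toSpanUnitSingleton x hx).symm.trans
    (LinearIsometryEquiv.toSpanUnitSingleton y hy), ?_⟩
  have h1 : (LinearIsometryEquiv.toSpanUnitSingleton (𝕜 := ℝ) x hx).symm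
      ⟨x, Submodule.mem_span_singleton_self x⟩ = 1 := by
    rw [LinearIsometryEquiv.symm_apply_eq, LinearIsometryEquiv.toSpanUnitSingleton_apply]
    apply Subtype.ext
    simp
  rw [LinearIsometryEquiv.trans_apply, h1, LinearIsometryEquiv.toSpanUnitSingleton_apply]
  simp

end Pool.Agent.R278.UD
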