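import Pool.Agent.R278.UD.Ext
import Pool.Agent.Helper669.KDelta

/-!
# A rich bookkeeping function
-/

open Set Cardinal Function

namespace Pool.Agent.R278.UD

open Pool.Agent.Helper669.KDelta

universe u

/-- A functional bounded by the supremum of the entries. -/
def Ctr {I : Type u} (t : (I → ℝ) →ₗ[ℝ] ℝ) : Prop :=
  ∀ (u : I → ℝ) (C : ℝ), (∀ n, |u n| ≤ C) → |t u| ≤ C

/-- Every prescription is realised at many coordinates and there are many free coordinates. -/
structure Rich {O I W : Type u} [LinearOrder O] (B : Book O I W) : Prop where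
  rich : ∀ (s : I → W) (t : (I → ℝ) →ₗ[ℝ] ℝ), Ctr t → ∀ C : Set W, #C ≤ #I →
    ∃ Γ : I → W, Injective Γ ∧ ∀ i, Γ i ∉ C ∧ Γ i ∉ B.F ∧ B.s (Γ i) = s ∧ B.t (Γ i) = t
  free : ∃ p : W → Finset (Option W), ∀ q, ∃ γ ∈ B.F, p γ = q
  big : 2 ^ #I < #W

theorem exists_surj {α β : Type u} [Nonempty β] (h : #β ≤ #α) : ∃ f : α → β, Surjective f := by
  obtain ⟨e⟩ := (Cardinal.le_def β α).1 h
  exact ⟨invFun e, invFun_surjective e.injective⟩

theorem mk_fun_real (I : Type u) [Infinite I] : #(I → ℝ) = 2 ^ #I := by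
  rw [Cardinal.mk_arrow, Cardinal.mk_real, Cardinal.lift_continuum, Cardinal.lift_uzero,
    ← Cardinal.two_power_aleph0, ← Cardinal.power_mul,
    Cardinal.aleph0_mul_eq (Cardinal.aleph0_le_mk I)]

theorem mk_functional (I : Type u) [Infinite I] : #((I → ℝ) →ₗ[ℝ] ℝ) ≤ 2 ^ (2 ^ #I : Cardinal) := by
  have h1 : #((I → ℝ) →ₗ[ℝ] ℝ) ≤ #((I → ℝ) → ℝ) :=
    Cardinal.mk_le_of_injective (f := fun t : (I → ℝ) →ₗ[ℝ] ℝ => (t : (I → ℝ) → ℝ))
      (fun a b h => DFunLike.coe_injective h)
  refine h1.trans ?_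
  rw [Cardinal.mk_arrow, Cardinal.mk_real, Cardinal.lift_continuum, Cardinal.lift_uzero,
    mk_fun_real, ← Cardinal.two_power_aleph0, ← Cardinal.power_mul, Cardinal.aleph0_mul_eq]
  exact (Cardinal.aleph0_le_mk I).trans (Cardinal.cantor _).le

theorem exists_rich (I : Type u) [Infinite I] : ∃ (O W : Type u) (_ : LinearOrder O)
    (_ : WellFoundedLT O) (B : Book O I W), Rich B := by
  classical
  have hI : ℵ₀ ≤ #I := Cardinal.aleph0_le_mk I
  let O : Type u := (Order.succ #I).ord.ToType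
  let V : Type u := Set (Set I)
  let W : Type u := O × V
  have hO : #O = Order.succ #I := by
    simp only [O]
    rw [Cardinal.mk_toType, Cardinal.card_ord]
  have hV : #V = 2 ^ (2 ^ #I : Cardinal) := by
    simp only [V]
    rw [Cardinal.mk_set, Cardinal.mk_set]
  have hIV : #I ≤ 2 ^ #I := (Cardinal.cantor _).le
  have hIV2 : (2 ^ #I : Cardinal) ≤ 2 ^ (2 ^ #I : Cardinal) := (Cardinal.cantor _).le
  have hinf : ℵ₀ ≤ (2 ^ (2 ^ #I : Cardinal) : Cardinal) := hI.trans (hIV.trans hIV2)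
  have hW : #W = 2 ^ (2 ^ #I : Cardinal) := by
    simp only [W]
    rw [Cardinal.mk_prod, Cardinal.lift_id, Cardinal.lift_id, hO, hV]
    apply Cardinal.mul_eq_right hinf
    · exact (Order.succ_le_of_lt (Cardinal.cantor _)).trans hIV2
    · exact (Order.lt_succ_of_le zero_le).ne'
  have : Infinite O := by
    rw [Cardinal.infinite_iff, hO]
    exact hI.trans (Order.le_succ _)
  have : Nonempty V := ⟨(∅ : Set (Set I))⟩
  have : Infinite W := by
    rw [Cardinal.infinite_iff, hW]
    exact hinf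
  obtain ⟨o⟩ : Nonempty O := inferInstance
  -- the codes
  have : Nonempty ((I → W) × ((I → ℝ) →ₗ[ℝ] ℝ)) := inferInstance
  obtain ⟨φ, hφ⟩ : ∃ φ : V → (I → W) × ((I → ℝ) →ₗ[ℝ] ℝ), Surjective φ := by
    apply exists_surj
    rw [Cardinal.mk_prod, Cardinal.lift_id, Cardinal.lift_id, hV]
    have h1 : #(I → W) = 2 ^ (2 ^ #I : Cardinal) := by
      rw [← Cardinal.power_def, hW, ← Cardinal.power_mul, Cardinal.mul_eq_left]
      · exact hI.trans hIV
      · exact hIV
      · exact Cardinal.mk_ne_zero I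
    rw [h1]
    calc (2 ^ (2 ^ #I : Cardinal) : Cardinal) * #((I → ℝ) →ₗ[ℝ] ℝ)
        ≤ (2 ^ (2 ^ #I : Cardinal) : Cardinal) * (2 ^ (2 ^ #I : Cardinal) : Cardinal) :=
          mul_le_mul' le_rfl (mk_functional I)
      _ = 2 ^ (2 ^ #I : Cardinal) := Cardinal.mul_eq_self hinf
  obtain ⟨p, hp⟩ : ∃ p : V → Finset (Option W), Surjective p := by
    apply exists_surj
    rw [Cardinal.mk_finset_of_infinite, Cardinal.mk_option, hW, hV]
    rw [Cardinal.add_one_eq hinf]
  let good : W → Prop := fun γ => (∀ n, ((φ γ.2).1 n).1 < γ.1) ∧ Ctr (φ γ.2).2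
  let B : Book O I W :=
    { rk := fun γ => γ.1
      F := {γ | γ.1 = o}
      s := fun γ => (φ γ.2).1
      t := fun γ => if good γ then (φ γ.2).2 else 0
      lt := by
        intro γ
        by_cases hg : good γ
        · exact Or.inl hg.1
        · exact Or.inr (if_neg hg)
      bd := by
        intro γ u C hu
        by_cases hg : good γ
        · rw [if_pos hg]
          exact hg.2 u C hu
        · rw [if_neg hg, LinearMap.zero_apply, abs_zero]
          obtain ⟨n⟩ : Nonempty I := inferInstance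
          exact (abs_nonneg _).trans (hu n) }
  refine ⟨O, W, inferInstance, inferInstance, B, ?_, ?_, ?_⟩
  · intro s t ht C hC
    obtain ⟨v, hv⟩ := hφ (s, t)
    have hIic : ∀ x : O, #(Set.Iic x) ≤ #I := by
      intro x
      rw [← Set.Iio_union_right]
      refine small_union hI ?_ (small_singleton hI x)
      exact Order.lt_succ_iff.1 (Cardinal.mk_Iio_toType_ord_lt x)
    have hU : #(((⋃ n : I, Set.Iic (s n).1) ∪ ({o} : Set O)) ∪ (Prod.fst '' C) : Set O) ≤ #I := by
      refine small_union hI (small_union hI (small_iUnion hI le_rfl _ (fun n => hIic _))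
        (small_singleton hI o)) ?_
      exact Cardinal.mk_image_le.trans hC
    obtain ⟨Ξ, hΞ⟩ : ∃ Ξ : I ↪ O,
        ∀ i, Ξ i ∉ (((⋃ n : I, Set.Iic (s n).1) ∪ ({o} : Set O)) ∪ (Prod.fst '' C)) := by
      have h1 : ¬ #(Set.univ \ (((⋃ n : I, Set.Iic (s n).1) ∪ ({o} : Set O)) ∪
          (Prod.fst '' C)) : Set O) ≤ #I := by
        apply not_small_diff hI _ hU
        rw [Cardinal.mk_univ, hO, not_le]
        exact Order.lt_succ _
      obtain ⟨e⟩ := (Cardinal.le_def _ _).1 (le_of_not_ge h1)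
      exact ⟨e.trans (Function.Embedding.subtype _), fun i => (e i).2.2⟩
    refine ⟨fun i => (Ξ i, v), ?_, ?_⟩
    · intro i j hij
      exact Ξ.injective (congrArg Prod.fst hij)
    intro i
    have hξ := hΞ i
    simp only [Set.mem_union, not_or, Set.mem_iUnion, not_exists, Set.mem_Iic, not_le,
      Set.mem_singleton_iff] at hξ
    have hg : good (Ξ i, v) := by
      constructor
      · intro n
        change ((φ v).1 n).1 < Ξ i
        rw [hv]
        exact hξ.1.1 n
      · change Ctr (φ v).2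
        rw [hv]
        exact ht
    refine ⟨?_, ?_, ?_, ?_⟩
    · intro h
      exact hξ.2 ⟨_, h, rfl⟩
    · exact hξ.1.2
    · change (φ v).1 = s
      rw [hv]
    · change (if good (Ξ i, v) then (φ v).2 else 0) = t
      rw [if_pos hg, hv]
  · refine ⟨fun γ => p γ.2, ?_⟩
    intro q
    obtain ⟨v, hv⟩ := hp q
    exact ⟨(o, v), rfl, hv⟩
  · rw [hW]
    exact Cardinal.cantor _

end Pool.Agent.R278.UD
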