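import Pool.Agent.R278.UD.Space
import Pool.Agent.R278.UD.Rich

/-!
# Universal disposition
-/

open Set Cardinal Filter Topology Function
open scoped ENNReal

namespace Pool.Agent.R278.UD

open Pool.Agent.Helper669.KDelta

universe u

/-- Hahn-Banach along an isometric embedding. -/
theorem hb {A E : Type*} [NormedAddCommGroup A] [NormedSpace ℝ A] [NormedAddCommGroup E]
    [NormedSpace ℝ E] (J : A →ₗᵢ[ℝ] E) (f : A →ₗ[ℝ] ℝ) (hf : ∀ a, |f a| ≤ ‖a‖) :
    ∃ G : E →L[ℝ] ℝ, (∀ a, G (J a) = f a) ∧ ∀ x, |G x| ≤ ‖x‖ := by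
  let p : Submodule ℝ E := LinearMap.range J.toLinearMap
  let f' : p →L[ℝ] ℝ := LinearMap.mkContinuous
    (f.comp (J.equivRange.symm.toLinearEquiv : p →ₗ[ℝ] A)) 1 (by
      intro x
      rw [one_mul, Real.norm_eq_abs]
      refine (hf _).trans ?_
      exact (J.equivRange.symm.norm_map x).le)
  obtain ⟨G, hG1, hG2⟩ := _root_.exists_extension_norm_eq p f'
  refine ⟨G, ?_, ?_⟩
  · intro a
    have h1 := hG1 (J.equivRange a)
    have h2 : ((J.equivRange a : p) : E) = J a := rfl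
    rw [h2] at h1
    rw [h1]
    change f (J.equivRange.symm (J.equivRange a)) = f a
    rw [LinearIsometryEquiv.symm_apply_apply]
  · intro x
    have h1 : ‖G‖ ≤ 1 := by
      rw [hG2]
      exact LinearMap.mkContinuous_norm_le _ zero_le_one _
    calc |G x| ≤ ‖G‖ * ‖x‖ := G.le_opNorm x
      _ ≤ 1 * ‖x‖ := mul_le_mul_of_nonneg_right h1 (norm_nonneg _)
      _ = ‖x‖ := one_mul _

/-- The inclusion of the bounded functions into all functions. -/
def incl (I : Type u) : Linf I →ₗ[ℝ] (I → ℝ) where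
  toFun f := f
  map_add' f g := lp.coeFn_add f g
  map_smul' c f := lp.coeFn_smul c f

theorem exists_ctr {A : Type*} [NormedAddCommGroup A] [NormedSpace ℝ A] {I : Type u} [Nonempty I]
    (j : A →ₗ[ℝ] (I → ℝ)) (hj1 : ∀ a n, |j a n| ≤ ‖a‖)
    (hj2 : ∀ a C, (∀ n, |j a n| ≤ C) → ‖a‖ ≤ C) (f : A →ₗ[ℝ] ℝ) (hf : ∀ a, |f a| ≤ ‖a‖) :
    ∃ t : (I → ℝ) →ₗ[ℝ] ℝ, Ctr t ∧ ∀ a, t (j a) = f a := by
  obtain ⟨n0⟩ : Nonempty I := inferInstance
  let J : A →ₗᵢ[ℝ] Linf I :=
    { toFun := fun a => ⟨j a, linf_mem (hj1 a)⟩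
      map_add' := by
        intro a b
        apply lp.ext
        change j (a + b) = _
        rw [map_add, lp.coeFn_add]
      map_smul' := by
        intro c a
        apply lp.ext
        change j (c • a) = _
        rw [map_smul, lp.coeFn_smul]
        rfl
      norm_map' := by
        intro a
        apply le_antisymm
        · exact linf_norm_le (norm_nonneg _) (hj1 a)
        · exact hj2 a _ (fun n => abs_le_linf_norm (⟨j a, linf_mem (hj1 a)⟩ : Linf I) n) }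
  obtain ⟨G, hG1, hG2⟩ := hb J f hf
  have hker : LinearMap.ker (incl I) = ⊥ := by
    rw [LinearMap.ker_eq_bot]
    intro f g h
    exact lp.ext h
  obtain ⟨r, hr⟩ := LinearMap.exists_leftInverse_of_injective (incl I) hker
  have hr' : ∀ f : Linf I, r (f : I → ℝ) = f := fun f => LinearMap.congr_fun hr f
  refine ⟨(G : Linf I →ₗ[ℝ] ℝ).comp r, ?_, ?_⟩
  · intro w C hw
    have hC : 0 ≤ C := (abs_nonneg _).trans (hw n0)
    have h1 : r w = (⟨w, linf_mem hw⟩ : Linf I) := hr' ⟨w, linf_mem hw⟩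
    rw [LinearMap.comp_apply, h1]
    exact (hG2 _).trans (linf_norm_le hC hw)
  · intro a
    have h1 : r (j a) = J a := hr' (J a)
    rw [LinearMap.comp_apply, h1]
    exact hG1 a

variable {O I W : Type u} [LinearOrder O] [WellFoundedLT O] (B : Book O I W) [Infinite I]

omit [Infinite I] in
theorem dset_ext_le {S : Set W} (hS : #S ≤ #I) (z : W → ℝ) :
    #(dset B (ext B (B.F ∪ S) z)) ≤ #I := by
  refine small_mono ?_ hS
  rintro γ ⟨h1, h2⟩
  by_contra h
  apply h2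
  apply dfct_ext B z
  simp [h1, h]

/-- The element obtained by extending a bounded function from the free coordinates and few other
coordinates. -/
noncomputable def extX {S : Set W} (hS : #S ≤ #I) (z : W → ℝ) {C : ℝ} (hC : 0 ≤ C)
    (hz : ∀ γ, |z γ| ≤ C) : XS B :=
  mkX B (ext B (B.F ∪ S) z) (C := C) (fun w => abs_ext_le B _ z hC (fun γ _ => hz γ) w)
    (dset_ext_le B hS z)

theorem ev_extX {S : Set W} (hS : #S ≤ #I) (z : W → ℝ) {C : ℝ} (hC : 0 ≤ C)
    (hz : ∀ γ, |z γ| ≤ C) : ev B (extX B hS z hC hz) = ext B (B.F ∪ S) z := rfl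

theorem norm_extX_le {S : Set W} (hS : #S ≤ #I) (z : W → ℝ) {C : ℝ} (hC : 0 ≤ C)
    (hz : ∀ γ, |z γ| ≤ C) : ‖extX B hS z hC hz‖ ≤ C :=
  norm_le B hC (fun w => abs_ext_le B _ z hC (fun γ _ => hz γ) w)

omit [WellFoundedLT O] in
/-- The defects of a subspace with few generators. -/
theorem exists_small {A : Type u} [NormedAddCommGroup A] [NormedSpace ℝ A] (e : A →ₗᵢ[ℝ] XS B)
    {d : I → A} (hd : DenseRange d) : ∃ S : Set W, #S ≤ #I ∧ ∀ a, dset B (ev B (e a)) ⊆ S := by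
  refine ⟨⋃ i, dset B (ev B (e (d i))), ?_, ?_⟩
  · exact small_iUnion (Cardinal.aleph0_le_mk I) le_rfl _ (fun i => dset_ev B _)
  · rintro a γ ⟨h1, h2⟩
    by_contra hcon
    rw [Set.mem_iUnion, not_exists] at hcon
    apply h2
    by_contra h3
    have h4 : 0 < |dfct B (ev B (e a)) γ| := abs_pos.2 h3
    obtain ⟨i, hi⟩ := hd.exists_dist_lt a (half_pos h4)
    have h5 : dfct B (ev B (e (d i))) γ = 0 := by
      by_contra h
      exact hcon i ⟨h1, h⟩
    have h6 := abs_dfct_le B ((e a - e (d i) : XS B) : Linf W) γ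
    have h7 : (((e a - e (d i) : XS B) : Linf W) : W → ℝ) = ev B (e a) - ev B (e (d i)) :=
      ev_sub B _ _
    rw [h7, map_sub, Pi.sub_apply, h5, sub_zero] at h6
    have h8 : ‖((e a - e (d i) : XS B) : Linf W)‖ = dist a (d i) := by
      rw [dist_eq_norm, ← e.norm_map (a - d i), map_sub]
      rfl
    rw [h8] at h6
    linarith

omit [WellFoundedLT O] in
/-- A family of coordinates norming a subspace. -/
theorem exists_norming [Nonempty W] {A : Type u} [NormedAddCommGroup A] [NormedSpace ℝ A]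
    (e : A →ₗᵢ[ℝ] XS B) {d : I → A} (hd : DenseRange d) :
    ∃ s : I → W, ∀ a C, (∀ n, |ev B (e a) (s n)| ≤ C) → ‖a‖ ≤ C := by
  have h1 : ∀ q : I × ULift.{u} ℕ, ∃ w : W,
      ‖d q.1‖ - 1 / ((q.2.down : ℝ) + 1) ≤ |ev B (e (d q.1)) w| := by
    intro q
    by_contra hcon
    push Not at hcon
    obtain ⟨w0⟩ : Nonempty W := inferInstance
    have h2 : ‖e (d q.1)‖ ≤ ‖d q.1‖ - 1 / ((q.2.down : ℝ) + 1) := by
      apply norm_le B
      · exact (abs_nonneg _).trans (hcon w0).le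
      · exact fun w => (hcon w).le
    rw [e.norm_map] at h2
    have h3 : (0 : ℝ) < 1 / ((q.2.down : ℝ) + 1) := by positivity
    linarith
  choose s hs using h1
  have hcard : #I = #(I × ULift.{u} ℕ) := by
    rw [Cardinal.mk_prod, Cardinal.lift_id, Cardinal.lift_id, Cardinal.mk_uLift, Cardinal.mk_nat,
      Cardinal.lift_aleph0, Cardinal.mul_aleph0_eq (Cardinal.aleph0_le_mk I)]
  obtain ⟨σ⟩ := Cardinal.eq.1 hcard
  refine ⟨fun n => s (σ n), ?_⟩
  intro a C hC
  apply le_of_forall_pos_le_add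
  intro δ hδ
  obtain ⟨i, hi⟩ := hd.exists_dist_lt a (show 0 < δ / 3 by positivity)
  obtain ⟨n, hn⟩ := exists_nat_one_div_lt (show 0 < δ / 3 by positivity)
  have h2 := hs (i, ⟨n⟩)
  have h3 := hC (σ.symm (i, ⟨n⟩))
  simp only [Equiv.apply_symm_apply] at h3
  simp only at h2
  have h4 : ‖a‖ ≤ ‖d i‖ + dist a (d i) := by
    rw [dist_eq_norm]
    have := norm_add_le (d i) (a - d i)
    rwa [add_sub_cancel] at this
  have h5 : |ev B (e (d i)) (s (i, ⟨n⟩))| ≤ |ev B (e a) (s (i, ⟨n⟩))| + dist a (d i) := by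
    have h6 := abs_ev_le B (e (d i) - e a) (s (i, ⟨n⟩))
    rw [ev_sub, Pi.sub_apply, ← map_sub, e.norm_map, ← dist_eq_norm, dist_comm] at h6
    have h7 := abs_add_le (ev B (e a) (s (i, ⟨n⟩))) (ev B (e (d i)) (s (i, ⟨n⟩)) -
      ev B (e a) (s (i, ⟨n⟩)))
    rw [add_sub_cancel] at h7
    linarith
  linarith

/-- Universal disposition. -/
theorem univ_disp (hB : Rich B) {A E : Type u} [NormedAddCommGroup A] [NormedSpace ℝ A]
    [NormedAddCommGroup E] [NormedSpace ℝ E] (i : A →ₗᵢ[ℝ] E) (e : A →ₗᵢ[ℝ] XS B)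
    {dA : I → A} (hdA : DenseRange dA) {dE : I → E} (hdE : DenseRange dE) :
    ∃ g : E →ₗᵢ[ℝ] XS B, ∀ a, g (i a) = e a := by
  classical
  have : Nonempty W := by
    obtain ⟨p, hp⟩ := hB.free
    obtain ⟨γ, -⟩ := hp ∅
    exact ⟨γ⟩
  obtain ⟨S0, hS0, hS0'⟩ := exists_small B e hdA
  obtain ⟨s, hs⟩ := exists_norming B e hdA
  -- norming functionals
  have h1 : ∀ n : I, ∃ g : StrongDual ℝ E, ‖g‖ ≤ 1 ∧ g (dE n) = ‖dE n‖ := fun n =>
    exists_dual_vector'' ℝ (dE n)
  choose g hg1 hg2 using h1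
  have hg3 : ∀ n b, |g n b| ≤ ‖b‖ := by
    intro n b
    calc |g n b| ≤ ‖g n‖ * ‖b‖ := (g n).le_opNorm b
      _ ≤ 1 * ‖b‖ := mul_le_mul_of_nonneg_right (hg1 n) (norm_nonneg _)
      _ = ‖b‖ := one_mul _
  have hg4 : ∀ b C, (∀ n, |g n b| ≤ C) → ‖b‖ ≤ C := by
    intro b C hC
    apply le_of_forall_pos_le_add
    intro δ hδ
    obtain ⟨n, hn⟩ := hdE.exists_dist_lt b (half_pos hδ)
    have h2 : ‖b‖ ≤ ‖dE n‖ + dist b (dE n) := by
      rw [dist_eq_norm]
      have := norm_add_le (dE n) (b - dE n)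
      rwa [add_sub_cancel] at this
    have h3 : ‖dE n‖ ≤ |g n b| + dist b (dE n) := by
      have h4 := hg3 n (dE n - b)
      rw [map_sub, ← dist_eq_norm, dist_comm] at h4
      have h5 := abs_add_le (g n b) (g n (dE n) - g n b)
      rw [add_sub_cancel, hg2 n] at h5
      have h6 : |(‖dE n‖ : ℝ)| = ‖dE n‖ := abs_of_nonneg (norm_nonneg _)
      have h7 : |((‖dE n‖ : ℝ) : ℝ)| ≤ |g n b| + |g n (dE n) - g n b| := by
        rw [hg2 n]
        exact h5
      rw [h6] at h7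
      linarith
    have := hC n
    linarith
  -- evaluation maps
  let evL : W → (A →ₗ[ℝ] ℝ) := fun w =>
    { toFun := fun a => ev B (e a) w
      map_add' := by
        intro a b
        rw [map_add, ev_add, Pi.add_apply]
      map_smul' := by
        intro c a
        rw [map_smul, ev_smul, Pi.smul_apply]
        rfl }
  have hev : ∀ w a, |evL w a| ≤ ‖a‖ := by
    intro w a
    rw [← e.norm_map a]
    exact abs_ev_le B (e a) w
  let j : A →ₗ[ℝ] (I → ℝ) := LinearMap.pi (fun n => evL (s n))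
  have hj : ∀ a n, j a n = ev B (e a) (s n) := fun a n => rfl
  -- the functionals
  have h2 : ∀ n : I, ∃ t : (I → ℝ) →ₗ[ℝ] ℝ, Ctr t ∧ ∀ a, t (j a) = g n (i a) := by
    intro n
    apply exists_ctr j (fun a m => hev (s m) a) hs ((g n : E →ₗ[ℝ] ℝ).comp i.toLinearMap)
    intro a
    have := hg3 n (i a)
    rwa [i.norm_map] at this
  choose t ht1 ht2 using h2
  -- the new coordinates
  have h3 : ∀ τ : (I → ℝ) →ₗ[ℝ] ℝ, ∃ Γ : I → W, Ctr τ → (Injective Γ ∧ ∀ k, Γ k ∉ S0 ∧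
      Γ k ∉ B.F ∧ B.s (Γ k) = s ∧ B.t (Γ k) = τ) := by
    intro τ
    by_cases hτ : Ctr τ
    · obtain ⟨Γ, h4, h5⟩ := hB.rich s τ hτ S0 hS0
      exact ⟨Γ, fun _ => ⟨h4, h5⟩⟩
    · exact ⟨fun _ => Classical.arbitrary W, fun h => absurd h hτ⟩
  choose Γ hΓ using h3
  let γ : I → W := fun n => Γ (t n) n
  have hγ0 : ∀ n, γ n ∉ S0 ∧ γ n ∉ B.F ∧ B.s (γ n) = s ∧ B.t (γ n) = t n := fun n =>
    (hΓ (t n) (ht1 n)).2 n
  have hγi : Injective γ := by
    intro m n hmn
    have h4 : t m = t n := by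
      rw [← (hγ0 m).2.2.2, ← (hγ0 n).2.2.2, hmn]
    have h5 : Γ (t m) m = Γ (t m) n := by
      change γ m = _
      rw [hmn]
      change Γ (t n) n = _
      rw [h4]
    exact (hΓ (t m) (ht1 m)).1 h5
  -- the extensions of the evaluations
  have h4 : ∀ w, ∃ G : E →L[ℝ] ℝ, (∀ a, G (i a) = evL w a) ∧ ∀ x, |G x| ≤ ‖x‖ := fun w =>
    hb i (evL w) (hev w)
  choose G hG1 hG2 using h4
  let S1 : Set W := S0 ∪ Set.range γ
  have hS1 : #S1 ≤ #I := small_union (Cardinal.aleph0_le_mk I) hS0 Cardinal.mk_range_le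
  let z : E → W → ℝ := fun b => Function.extend γ (fun n => g n b) (fun w => G w b)
  have hz1 : ∀ b n, z b (γ n) = g n b := fun b n => hγi.extend_apply _ _ n
  have hz2 : ∀ b w, (¬ ∃ n, γ n = w) → z b w = G w b := fun b w hw =>
    Function.extend_apply' _ _ w hw
  have hz3 : ∀ b w, |z b w| ≤ ‖b‖ := by
    intro b w
    by_cases hw : ∃ n, γ n = w
    · obtain ⟨n, rfl⟩ := hw
      rw [hz1]
      exact hg3 n b
    · rw [hz2 b w hw]
      exact hG2 w b
  have hz4 : ∀ b b', z (b + b') = z b + z b' := by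
    intro b b'
    funext w
    rw [Pi.add_apply]
    by_cases hw : ∃ n, γ n = w
    · obtain ⟨n, rfl⟩ := hw
      rw [hz1, hz1, hz1, map_add]
    · rw [hz2 _ w hw, hz2 _ w hw, hz2 _ w hw, map_add]
  have hz5 : ∀ (c : ℝ) b, z (c • b) = c • z b := by
    intro c b
    funext w
    rw [Pi.smul_apply]
    by_cases hw : ∃ n, γ n = w
    · obtain ⟨n, rfl⟩ := hw
      rw [hz1, hz1, map_smul]
    · rw [hz2 _ w hw, hz2 _ w hw, map_smul]
  let gl : E →ₗᵢ[ℝ] XS B :=
    { toFun := fun b => extX B hS1 (z b) (norm_nonneg b) (hz3 b)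
      map_add' := by
        intro b b'
        apply ev_inj
        rw [ev_add, ev_extX, ev_extX, ev_extX, hz4, ext_add]
      map_smul' := by
        intro c b
        apply ev_inj
        rw [ev_smul, ev_extX, ev_extX, hz5, ext_smul]
        rfl
      norm_map' := by
        intro b
        apply le_antisymm
        · exact norm_extX_le B hS1 (z b) (norm_nonneg b) (hz3 b)
        · apply hg4
          intro n
          have h5 := abs_ev_le B (extX B hS1 (z b) (norm_nonneg b) (hz3 b)) (γ n)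
          rw [ev_extX, ext_of_mem, hz1] at h5
          · exact h5
          · exact Or.inr (Or.inr ⟨n, rfl⟩) }
  refine ⟨gl, ?_⟩
  intro a
  apply ev_inj
  change ev B (extX B hS1 (z (i a)) (norm_nonneg _) (hz3 _)) = _
  rw [ev_extX]
  symm
  have hnd : ∀ w, w ∉ B.F → w ∉ S0 → dfct B (ev B (e a)) w = 0 := by
    intro w hw1 hw2
    by_contra h
    exact hw2 (hS0' a ⟨hw1, h⟩)
  apply ext_unique
  · intro w _
    by_cases hw : ∃ n, γ n = w
    · obtain ⟨n, rfl⟩ := hw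
      rw [hz1]
      obtain ⟨h5, h6, h7, h8⟩ := hγ0 n
      have h9 := hnd (γ n) h6 h5
      rw [dfct_apply, sub_eq_zero] at h9
      rw [h9, h7, h8]
      exact ht2 n a
    · rw [hz2 _ w hw, hG1]
      rfl
  · intro w hw
    apply hnd
    · exact fun h => hw (Or.inl h)
    · exact fun h => hw (Or.inr (Or.inl h))

end Pool.Agent.R278.UD
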