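import Mathlib

/-!
# Recursive extension of functions and defects
-/

open Set

namespace Pool.Agent.R278.UD

universe u

/-- A bookkeeping function on the index set `W` with stages in `O` and sources indexed by
`I`. -/
structure Book (O I W : Type u) [LinearOrder O] where
  /-- the stage -/
  rk : W → O
  /-- the free coordinates -/
  F : Set W
  /-- the sources of a coordinate -/
  s : W → I → W
  /-- the functional prescribing the value at a coordinate -/
  t : W → ((I → ℝ) →ₗ[ℝ] ℝ)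
  lt : ∀ γ, (∀ n, rk (s γ n) < rk γ) ∨ t γ = 0
  bd : ∀ γ (u : I → ℝ) (C : ℝ), (∀ n, |u n| ≤ C) → |t γ u| ≤ C

variable {O I W : Type u} [LinearOrder O] (B : Book O I W)

variable [WellFoundedLT O]

theorem wf_rk : WellFounded (fun a b : W => B.rk a < B.rk b) :=
  InvImage.wf B.rk wellFounded_lt

/-- Extend the values of `y` on `L` to all of `W` by the recursion. -/
noncomputable def ext (L : Set W) (y : W → ℝ) : W → ℝ :=
  open Classical in
  (wf_rk B).fix (fun γ rec => if γ ∈ L then y γ else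
    B.t γ (fun n => if h : B.rk (B.s γ n) < B.rk γ then rec (B.s γ n) h else 0))

open Classical in
theorem ext_eq (L : Set W) (y : W → ℝ) (γ : W) : ext B L y γ = if γ ∈ L then y γ else
      B.t γ (fun n => ext B L y (B.s γ n)) := by
  unfold ext
  rw [WellFounded.fix_eq]
  split_ifs with h
  · rfl
  · rcases B.lt γ with h1 | h1
    · congr 1
      funext n
      rw [dif_pos (h1 n)]
    · rw [h1]
      rfl

theorem ext_of_mem {L : Set W} (y : W → ℝ) {γ : W} (h : γ ∈ L) : ext B L y γ = y γ := by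
  classical
  rw [ext_eq, if_pos h]

theorem ext_of_notMem {L : Set W} (y : W → ℝ) {γ : W} (h : γ ∉ L) :
    ext B L y γ = B.t γ (fun n => ext B L y (B.s γ n)) := by
  classical
  rw [ext_eq, if_neg h]

/-- The defect. -/
noncomputable def dfct : (W → ℝ) →ₗ[ℝ] (W → ℝ) where
  toFun y := fun γ => y γ - B.t γ (fun n => y (B.s γ n))
  map_add' x y := by
    funext γ
    simp only [Pi.add_apply]
    have : (fun n => x (B.s γ n) + y (B.s γ n)) = (fun n => x (B.s γ n)) +
      (fun n => y (B.s γ n)) := rfl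
    rw [this, map_add]
    ring
  map_smul' c x := by
    funext γ
    simp only [Pi.smul_apply, smul_eq_mul, RingHom.id_apply]
    have : (fun n => c * x (B.s γ n)) = c • (fun n => x (B.s γ n)) := rfl
    rw [this, map_smul, smul_eq_mul]
    ring

omit [WellFoundedLT O] in
theorem dfct_apply (y : W → ℝ) (γ : W) :
    dfct B y γ = y γ - B.t γ (fun n => y (B.s γ n)) := rfl

/-- Two functions agreeing on `L` with no defects off `L` inside a closed set agree there. -/
theorem eq_of_closed {S : Set W} (hS : ∀ γ ∈ S, ∀ n, B.s γ n ∈ S) {x y : W → ℝ}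
    (h : ∀ γ ∈ S, x γ = y γ ∨ (dfct B x γ = 0 ∧ dfct B y γ = 0)) : ∀ γ ∈ S, x γ = y γ := by
  intro γ
  induction γ using (wf_rk B).induction with
  | _ γ ih =>
    intro hγ
    rcases h γ hγ with h1 | ⟨h1, h2⟩
    · exact h1
    · rw [dfct_apply, sub_eq_zero] at h1 h2
      rw [h1, h2]
      rcases B.lt γ with h3 | h3
      · congr 1
        funext n
        exact ih _ (h3 n) (hS γ hγ n)
      · rw [h3]
        rfl

theorem eq_of_agree {L : Set W} {x y : W → ℝ} (h1 : ∀ γ ∈ L, x γ = y γ)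
    (h2 : ∀ γ, γ ∉ L → dfct B x γ = 0) (h3 : ∀ γ, γ ∉ L → dfct B y γ = 0) : x = y := by
  classical
  funext γ
  refine eq_of_closed B (S := Set.univ) (fun _ _ _ => Set.mem_univ _) ?_ γ (Set.mem_univ _)
  intro δ _
  by_cases h : δ ∈ L
  · exact Or.inl (h1 δ h)
  · exact Or.inr ⟨h2 δ h, h3 δ h⟩

theorem dfct_ext {L : Set W} (y : W → ℝ) {γ : W} (h : γ ∉ L) : dfct B (ext B L y) γ = 0 := by
  rw [dfct_apply, ext_of_notMem B y h, sub_self]

theorem ext_unique {L : Set W} {y z : W → ℝ} (h1 : ∀ γ ∈ L, z γ = y γ)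
    (h2 : ∀ γ, γ ∉ L → dfct B z γ = 0) : z = ext B L y := by
  apply eq_of_agree B (L := L) _ h2 (fun γ hγ => dfct_ext B y hγ)
  intro γ hγ
  rw [h1 γ hγ, ext_of_mem B y hγ]

theorem ext_add (L : Set W) (x y : W → ℝ) : ext B L (x + y) = ext B L x + ext B L y := by
  symm
  apply ext_unique B
  · intro γ hγ
    rw [Pi.add_apply, ext_of_mem B _ hγ, ext_of_mem B _ hγ, Pi.add_apply]
  · intro γ hγ
    rw [map_add, Pi.add_apply, dfct_ext B _ hγ, dfct_ext B _ hγ, add_zero]

theorem ext_smul (L : Set W) (c : ℝ) (x : W → ℝ) : ext B L (c • x) = c • ext B L x := by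
  symm
  apply ext_unique B
  · intro γ hγ
    rw [Pi.smul_apply, ext_of_mem B _ hγ, Pi.smul_apply]
  · intro γ hγ
    rw [map_smul, Pi.smul_apply, dfct_ext B _ hγ, smul_zero]

/-- Functions without defects off `L` are bounded by their values on `L`. -/
theorem abs_le_of_dfct {L : Set W} {y : W → ℝ} {C : ℝ} (hC : 0 ≤ C) (hy : ∀ γ ∈ L, |y γ| ≤ C)
    (h : ∀ γ, γ ∉ L → dfct B y γ = 0) (γ : W) : |y γ| ≤ C := by
  induction γ using (wf_rk B).induction with
  | _ γ ih =>
    by_cases h1 : γ ∈ L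
    · exact hy γ h1
    · have h2 := h γ h1
      rw [dfct_apply, sub_eq_zero] at h2
      rw [h2]
      rcases B.lt γ with h3 | h3
      · exact B.bd γ _ C (fun n => ih _ (h3 n))
      · rw [h3]
        simpa using hC

theorem abs_ext_le (L : Set W) (y : W → ℝ) {C : ℝ} (hC : 0 ≤ C) (hy : ∀ γ ∈ L, |y γ| ≤ C)
    (γ : W) : |ext B L y γ| ≤ C := by
  apply abs_le_of_dfct B hC _ (fun γ hγ => dfct_ext B y hγ)
  intro γ hγ
  rw [ext_of_mem B y hγ]
  exact hy γ hγ

end Pool.Agent.R278.UD
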