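import Pool.Agent.R278.UD.Disp

/-!
# Two unit vectors in different orbits of the isometry group
-/

open Set Cardinal Function
open scoped ENNReal

namespace Pool.Agent.R278.UD

open Pool.Agent.Helper669.KDelta

universe u

/-- The invariant separating two vectors. -/
def PP (I : Type u) {X : Type u} [NormedAddCommGroup X] [NormedSpace ℝ X] (x : X) : Prop :=
  ∃ (A : Type u) (y : A → X), 2 ^ #I < #A ∧ (∀ α, ‖y α‖ ≤ 1) ∧
    ∀ b : Fin 6 → A, Injective b → 2 ≤ ‖x + (1 / 6 : ℝ) •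
      ((y (b 0) - y (b 1)) + (y (b 2) - y (b 3)) + (y (b 4) - y (b 5)))‖

theorem PP_iso {I : Type u} {X : Type u} [NormedAddCommGroup X] [NormedSpace ℝ X] {x : X}
    (h : X ≃ₗᵢ[ℝ] X) (hx : PP I x) : PP I (h x) := by
  obtain ⟨A, y, h1, h2, h3⟩ := hx
  refine ⟨A, fun α => h (y α), h1, ?_, ?_⟩
  · intro α
    rw [h.norm_map]
    exact h2 α
  · intro b hb
    have h4 := h3 b hb
    rw [← h.norm_map] at h4
    simpa only [map_add, map_sub, map_smul] using h4

variable {O I W : Type u} [LinearOrder O] (B : Book O I W) [Infinite I]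

/-- The iterated sources of a set. -/
def iter (D : Set W) : ℕ → Set W
  | 0 => D
  | n + 1 => iter D n ∪ ⋃ γ ∈ iter D n, Set.range (B.s γ)

/-- The closure of a small set under sources is small. -/
theorem exists_closed (D : Set W) (hD : #D ≤ #I) :
    ∃ S : Set W, D ⊆ S ∧ #S ≤ #I ∧ ∀ γ ∈ S, ∀ n, B.s γ n ∈ S := by
  have hI : ℵ₀ ≤ #I := Cardinal.aleph0_le_mk I
  have hC : ∀ n : ℕ, #(iter B D n) ≤ #I := by
    intro n
    induction n with
    | zero => exact hD
    | succ n ih =>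
      rw [iter]
      exact small_union hI ih (small_biUnion hI _ ih _ (fun γ _ => Cardinal.mk_range_le))
  refine ⟨⋃ n : ULift.{u} ℕ, iter B D n.down, ?_, ?_, ?_⟩
  · intro γ hγ
    exact Set.mem_iUnion.2 ⟨⟨0⟩, hγ⟩
  · refine small_iUnion (ι := ULift.{u} ℕ) hI ?_ (fun n => iter B D n.down)
      (fun n => hC n.down)
    rw [Cardinal.mk_uLift, Cardinal.mk_nat, Cardinal.lift_aleph0]
    exact hI
  · intro γ hγ m
    obtain ⟨n, hn⟩ := Set.mem_iUnion.1 hγ
    refine Set.mem_iUnion.2 ⟨⟨n.down + 1⟩, ?_⟩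
    change _ ∈ iter B D (n.down + 1)
    rw [iter]
    refine Or.inr ?_
    rw [Set.mem_iUnion₂]
    exact ⟨γ, hn, m, rfl⟩

variable [WellFoundedLT O]

omit [Infinite I] in
/-- The basic estimate. -/
theorem estimate (V : Fin 6 → W → ℝ) (S : Fin 6 → Set W) (h2 : ∀ i γ, |V i γ| ≤ 2)
    (hF : ∀ i, ∀ γ ∈ B.F, V i γ = 0) (hS : ∀ i, ∀ γ ∈ S i, ∀ n, B.s γ n ∈ S i)
    (hd : ∀ i γ, γ ∉ B.F → γ ∉ S i → dfct B (V i) γ = 0)
    (hR : ∀ i j, i ≠ j → ∀ γ ∈ S i, γ ∈ S j → ∀ k, V k γ = V j γ) (γ : W) :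
    |((V 0 - V 1) + (V 2 - V 3) + (V 4 - V 5)) γ| ≤ 4 := by
  -- on `S i` the other functions coincide
  have heq : ∀ i j k, i ≠ j → i ≠ k → ∀ γ ∈ S i, V j γ = V k γ := by
    intro i j k hij hik
    apply eq_of_closed B (hS i)
    intro γ hγ
    by_cases hγF : γ ∈ B.F
    · left
      rw [hF j γ hγF, hF k γ hγF]
    · by_cases hj : γ ∈ S j
      · left
        exact (hR i j hij γ hγ hj k).symm
      · by_cases hk : γ ∈ S k
        · left
          exact hR i k hik γ hγ hk j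
        · right
          exact ⟨hd j γ hγF hj, hd k γ hγF hk⟩
  have hpair : ∀ i j γ, |V i γ - V j γ| ≤ 4 := by
    intro i j γ
    have h3 := h2 i γ
    have h4 := h2 j γ
    have h5 := abs_sub (V i γ) (V j γ)
    linarith
  apply abs_le_of_dfct B (L := B.F ∪ ⋃ i, S i) (by norm_num : (0 : ℝ) ≤ 4)
  · intro γ hγ
    simp only [Pi.add_apply, Pi.sub_apply]
    rcases hγ with hγ | hγ
    · rw [hF 0 γ hγ, hF 1 γ hγ, hF 2 γ hγ, hF 3 γ hγ, hF 4 γ hγ, hF 5 γ hγ]
      norm_num
    · obtain ⟨i, hi⟩ := Set.mem_iUnion.1 hγ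
      by_cases h01 : i = 0 ∨ i = 1
      · have e1 := heq i 2 3 (by rcases h01 with h | h <;> rw [h] <;> decide)
          (by rcases h01 with h | h <;> rw [h] <;> decide) γ hi
        have e2 := heq i 4 5 (by rcases h01 with h | h <;> rw [h] <;> decide)
          (by rcases h01 with h | h <;> rw [h] <;> decide) γ hi
        rw [e1, e2, sub_self, sub_self, add_zero, add_zero]
        exact hpair 0 1 γ
      · by_cases h23 : i = 2 ∨ i = 3
        · have e1 := heq i 0 1 (by rcases h23 with h | h <;> rw [h] <;> decide)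
            (by rcases h23 with h | h <;> rw [h] <;> decide) γ hi
          have e2 := heq i 4 5 (by rcases h23 with h | h <;> rw [h] <;> decide)
            (by rcases h23 with h | h <;> rw [h] <;> decide) γ hi
          rw [e1, e2, sub_self, sub_self, zero_add, add_zero]
          exact hpair 2 3 γ
        · have h45 : i = 4 ∨ i = 5 := by
            fin_cases i <;> simp_all
          have e1 := heq i 0 1 (by rcases h45 with h | h <;> rw [h] <;> decide)
            (by rcases h45 with h | h <;> rw [h] <;> decide) γ hi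
          have e2 := heq i 2 3 (by rcases h45 with h | h <;> rw [h] <;> decide)
            (by rcases h45 with h | h <;> rw [h] <;> decide) γ hi
          rw [e1, e2, sub_self, sub_self, zero_add, zero_add]
          exact hpair 4 5 γ
  · intro γ hγ
    rw [Set.mem_union, not_or, Set.mem_iUnion, not_exists] at hγ
    simp only [map_add, map_sub, Pi.add_apply, Pi.sub_apply]
    rw [hd 0 γ hγ.1 (hγ.2 0), hd 1 γ hγ.1 (hγ.2 1), hd 2 γ hγ.1 (hγ.2 2), hd 3 γ hγ.1 (hγ.2 3),
      hd 4 γ hγ.1 (hγ.2 4), hd 5 γ hγ.1 (hγ.2 5)]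
    norm_num

/-- The first vector. -/
theorem exists_PP (hB : Rich B) : ∃ x : XS B, ‖x‖ = 1 ∧ PP I x := by
  classical
  obtain ⟨p, hp⟩ := hB.free
  let z : Option W → W → ℝ := fun j w => if j ∈ p w then 1 else -1
  have hz : ∀ j w, |z j w| ≤ 1 := by
    intro j w
    simp only [z]
    split_ifs <;> simp
  have hS : #(∅ : Set W) ≤ #I := by simp
  let e : Option W → XS B := fun j => extX B hS (z j) zero_le_one (hz j)
  have he : ∀ j, ‖e j‖ ≤ 1 := fun j => norm_extX_le B hS (z j) zero_le_one (hz j)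
  have hev : ∀ j, ∀ w ∈ B.F, ev B (e j) w = z j w := by
    intro j w hw
    simp only [e]
    rw [ev_extX, ext_of_mem]
    exact Or.inl hw
  refine ⟨e none, ?_, W, fun w => e (some w), hB.big, fun w => he _, ?_⟩
  · apply le_antisymm (he none)
    obtain ⟨γ, hγ, hγ2⟩ := hp {none}
    have h1 := abs_ev_le B (e none) γ
    rw [hev none γ hγ] at h1
    simp only [z, hγ2, Finset.mem_singleton, if_true, abs_one] at h1
    exact h1
  · intro b hb
    obtain ⟨γ, hγ, hγ2⟩ := hp {none, some (b 0), some (b 2), some (b 4)}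
    have hne : ∀ i j : Fin 6, i ≠ j → b i ≠ b j := fun i j h => hb.ne h
    have h1 := abs_ev_le B (e none + (1 / 6 : ℝ) • ((e (some (b 0)) - e (some (b 1))) +
      (e (some (b 2)) - e (some (b 3))) + (e (some (b 4)) - e (some (b 5))))) γ
    refine le_trans (le_of_eq ?_) h1
    rw [ev_add, ev_smul, ev_add, ev_add, ev_sub, ev_sub, ev_sub]
    simp only [Pi.add_apply, Pi.smul_apply, Pi.sub_apply, smul_eq_mul]
    rw [hev _ γ hγ, hev _ γ hγ, hev _ γ hγ, hev _ γ hγ, hev _ γ hγ, hev _ γ hγ, hev _ γ hγ]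
    have v1 : z none γ = 1 := by
      simp [z, hγ2]
    have v2 : z (some (b 0)) γ = 1 := by
      simp [z, hγ2]
    have v3 : z (some (b 2)) γ = 1 := by
      simp [z, hγ2]
    have v4 : z (some (b 4)) γ = 1 := by
      simp [z, hγ2]
    have v5 : z (some (b 1)) γ = -1 := by
      simp [z, hγ2, hne 1 0 (by decide), hne 1 2 (by decide), hne 1 4 (by decide)]
    have v6 : z (some (b 3)) γ = -1 := by
      simp [z, hγ2, hne 3 0 (by decide), hne 3 2 (by decide), hne 3 4 (by decide)]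
    have v7 : z (some (b 5)) γ = -1 := by
      simp [z, hγ2, hne 5 0 (by decide), hne 5 2 (by decide), hne 5 4 (by decide)]
    rw [v1, v2, v3, v4, v5, v6, v7]
    norm_num

/-- Many functions contain six functions in good position. -/
theorem exists_six {A : Type u} (hA : 2 ^ #I < #A) (v : A → W → ℝ) (S : A → Set W)
    (hS : ∀ a, #(S a) ≤ #I) : ∃ b : Fin 6 → A, Injective b ∧
      ∀ i j, i ≠ j → ∀ γ ∈ S (b i), γ ∈ S (b j) → ∀ k, v (b k) γ = v (b j) γ := by
  classical
  have hI : ℵ₀ ≤ #I := Cardinal.aleph0_le_mk I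
  have hI2 : ℵ₀ ≤ (2 ^ #I : Cardinal) := hI.trans (Cardinal.cantor _).le
  obtain ⟨T, R, hT, hR, hTR⟩ := weak_delta hI2 (not_le.2 hA) S
    (fun a => (hS a).trans_lt (Cardinal.cantor _))
  -- enumerate the root
  have h1 : ∀ a, ∃ c : I → Option R, ∀ r : R, (r : W) ∈ S a ↔ ∃ n, c n = some r := by
    intro a
    by_cases hne : (S a ∩ R).Nonempty
    · have : Nonempty (S a ∩ R : Set W) := hne.to_subtype
      obtain ⟨f, hf⟩ := exists_surj (α := I) (β := (S a ∩ R : Set W))
        (small_mono Set.inter_subset_left (hS a))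
      refine ⟨fun n => some ⟨(f n).1, (f n).2.2⟩, ?_⟩
      intro r
      constructor
      · intro hr
        obtain ⟨n, hn⟩ := hf ⟨r.1, hr, r.2⟩
        refine ⟨n, ?_⟩
        apply congrArg some
        apply Subtype.ext
        change (f n).1 = r.1
        rw [hn]
      · rintro ⟨n, hn⟩
        have h2 := Option.some.inj hn
        rw [← h2]
        exact (f n).2.1
    · refine ⟨fun _ => none, ?_⟩
      intro r
      constructor
      · intro hr
        exact absurd ⟨r.1, hr, r.2⟩ hne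
      · rintro ⟨n, hn⟩
        exact absurd hn (by simp)
  choose c hc using h1
  let code : T → (I → Option R) × (I → ℝ) := fun a =>
    (c a.1, fun n => (c a.1 n).elim 0 (fun r => v a.1 r.1))
  have hcard : #((I → Option R) × (I → ℝ)) ≤ 2 ^ #I := by
    rw [Cardinal.mk_prod, Cardinal.lift_id, Cardinal.lift_id, mk_fun_real]
    have h2 : #(I → Option R) ≤ 2 ^ #I := by
      rw [← Cardinal.power_def, Cardinal.mk_option]
      calc (#R + 1) ^ #I ≤ (2 ^ #I : Cardinal) ^ #I := by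
            apply Cardinal.power_le_power_right
            calc #R + 1 ≤ 2 ^ #I + 1 := add_le_add hR le_rfl
              _ = 2 ^ #I := Cardinal.add_one_eq hI2
        _ = 2 ^ #I := by
            rw [← Cardinal.power_mul, Cardinal.mul_eq_self hI]
    calc #(I → Option R) * 2 ^ #I ≤ 2 ^ #I * 2 ^ #I := mul_le_mul' h2 le_rfl
      _ = 2 ^ #I := Cardinal.mul_eq_self hI2
  have hlt : #((I → Option R) × (I → ℝ)) < #T := hcard.trans_lt (not_le.1 hT)
  obtain ⟨q, hq⟩ := Cardinal.infinite_pigeonhole_card_lt code hlt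
    (hI2.trans (not_le.1 hT).le)
  have hinf : ℵ₀ ≤ #(code ⁻¹' {q}) := by
    refine le_trans ?_ hq.le
    have : Infinite ((I → Option R) × (I → ℝ)) := inferInstance
    exact Cardinal.aleph0_le_mk _
  have hinf' : Infinite (code ⁻¹' {q}) := Cardinal.infinite_iff.2 hinf
  let em := Infinite.natEmbedding (code ⁻¹' {q})
  have hinj : Injective (fun i : Fin 6 => ((em (i : ℕ)).1.1 : A)) := by
    intro i j hij
    have h2 : (em (i : ℕ)).1 = (em (j : ℕ)).1 := Subtype.ext hij
    have h3 : em (i : ℕ) = em (j : ℕ) := Subtype.ext h2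
    exact Fin.ext (em.injective h3)
  refine ⟨fun i => (em (i : ℕ)).1.1, hinj, ?_⟩
  intro i j hij γ hγi hγj k
  have hγR : γ ∈ R := hTR _ (em (i : ℕ)).1.2 _ (em (j : ℕ)).1.2 (hinj.ne hij) ⟨hγi, hγj⟩
  have hcode : ∀ l : Fin 6, code (em (l : ℕ)).1 = q := fun l => (em (l : ℕ)).2
  obtain ⟨n, hn⟩ := (hc _ ⟨γ, hγR⟩).1 hγj
  have hck : code (em (k : ℕ)).1 = code (em (j : ℕ)).1 := (hcode k).trans (hcode j).symm
  have h4 : c (em (k : ℕ)).1.1 n = some ⟨γ, hγR⟩ := by
    rw [← hn]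
    exact congrFun (congrArg Prod.fst hck) n
  have h5 : (c (em (k : ℕ)).1.1 n).elim 0 (fun r => v (em (k : ℕ)).1.1 r.1) =
      (c (em (j : ℕ)).1.1 n).elim 0 (fun r => v (em (j : ℕ)).1.1 r.1) :=
    congrFun (congrArg Prod.snd hck) n
  rw [h4, hn] at h5
  exact h5

/-- The second vector. -/
theorem exists_not_PP (hB : Rich B) : ∃ x : XS B, ‖x‖ = 1 ∧ ¬ PP I x := by
  classical
  have hI : ℵ₀ ≤ #I := Cardinal.aleph0_le_mk I
  obtain ⟨i0⟩ : Nonempty I := inferInstance
  obtain ⟨p, hp⟩ := hB.free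
  obtain ⟨w0, -⟩ := hp ∅
  obtain ⟨Γ, -, hΓ⟩ := hB.rich (fun _ => w0) 0 (by
    intro u C hu
    rw [LinearMap.zero_apply, abs_zero]
    exact (abs_nonneg _).trans (hu i0)) ∅ (by simp)
  obtain ⟨-, hγF, -, hγt⟩ := hΓ i0
  set γ0 := Γ i0 with hγ0
  have hS : #({γ0} : Set W) ≤ #I := small_singleton hI γ0
  let z : W → ℝ := Pi.single γ0 1
  have hz : ∀ w, |z w| ≤ 1 := by
    intro w
    by_cases h : w = γ0
    · subst h
      simp [z]
    · simp [z, h]
  let x1 : XS B := extX B hS z zero_le_one hz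
  have hx1F : ∀ w ∈ B.F, ev B x1 w = 0 := by
    intro w hw
    simp only [x1]
    rw [ev_extX, ext_of_mem B _ (Or.inl hw)]
    have hne : w ≠ γ0 := by
      intro h
      rw [h] at hw
      exact hγF hw
    simp [z, hne]
  have hx1γ : ev B x1 γ0 = 1 := by
    simp only [x1]
    rw [ev_extX, ext_of_mem B _ (Or.inr rfl)]
    simp [z]
  have hx1d : ∀ w, w ∉ B.F ∪ {γ0} → dfct B (ev B x1) w = 0 := by
    intro w hw
    exact dfct_ext B z hw
  refine ⟨x1, ?_, ?_⟩
  · apply le_antisymm (norm_extX_le B hS z zero_le_one hz)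
    have h1 := abs_ev_le B x1 γ0
    rwa [hx1γ, abs_one] at h1
  rintro ⟨A, y, hA, hy1, hy2⟩
  let v : A → W → ℝ := fun a => ev B (y a) - ext B B.F (ev B (y a))
  have hvF : ∀ a, ∀ w ∈ B.F, v a w = 0 := by
    intro a w hw
    simp only [v, Pi.sub_apply]
    rw [ext_of_mem B _ hw, sub_self]
  have hv2 : ∀ a w, |v a w| ≤ 2 := by
    intro a w
    simp only [v, Pi.sub_apply]
    have h1 : |ev B (y a) w| ≤ 1 := (abs_ev_le B _ w).trans (hy1 a)
    have h2 : |ext B B.F (ev B (y a)) w| ≤ 1 :=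
      abs_ext_le B _ _ zero_le_one (fun γ _ => (abs_ev_le B _ γ).trans (hy1 a)) w
    have h3 := abs_sub (ev B (y a) w) (ext B B.F (ev B (y a)) w)
    linarith
  have hvd : ∀ a w, w ∉ B.F → dfct B (v a) w = dfct B (ev B (y a)) w := by
    intro a w hw
    simp only [v, map_sub, Pi.sub_apply]
    rw [dfct_ext B _ hw, sub_zero]
  have h1 : ∀ a, ∃ S : Set W, dset B (ev B (y a)) ⊆ S ∧ #S ≤ #I ∧ ∀ γ ∈ S, ∀ n, B.s γ n ∈ S :=
    fun a => exists_closed B _ (dset_ev B (y a))
  choose S hS1 hS2 hS3 using h1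
  obtain ⟨b, hb, hbS⟩ := exists_six hA v S hS2
  have hest := estimate B (fun i => v (b i)) (fun i => S (b i)) (fun i => hv2 (b i))
    (fun i => hvF (b i)) (fun i => hS3 (b i)) (by
      intro i w hw1 hw2
      by_contra h
      rw [hvd _ w hw1] at h
      exact hw2 (hS1 _ ⟨hw1, h⟩)) hbS
  have h2 := hy2 b hb
  -- the free part
  let u : W → ℝ := (ev B (y (b 0)) - ev B (y (b 1))) + (ev B (y (b 2)) - ev B (y (b 3))) +
    (ev B (y (b 4)) - ev B (y (b 5)))
  let h : W → ℝ := (ext B B.F (ev B (y (b 0))) - ext B B.F (ev B (y (b 1)))) +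
    (ext B B.F (ev B (y (b 2))) - ext B B.F (ev B (y (b 3)))) +
    (ext B B.F (ev B (y (b 4))) - ext B B.F (ev B (y (b 5))))
  have hu : ∀ w, u w = h w +
      ((v (b 0) - v (b 1)) + (v (b 2) - v (b 3)) + (v (b 4) - v (b 5))) w := by
    intro w
    simp only [u, h, v, Pi.add_apply, Pi.sub_apply]
    ring
  have hhd : ∀ w, w ∉ B.F → dfct B h w = 0 := by
    intro w hw
    simp only [h, map_add, map_sub, Pi.add_apply, Pi.sub_apply]
    rw [dfct_ext B _ hw, dfct_ext B _ hw, dfct_ext B _ hw, dfct_ext B _ hw, dfct_ext B _ hw,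
      dfct_ext B _ hw]
    norm_num
  have hh6 : ∀ w, |h w| ≤ 6 := by
    intro w
    have h3 : ∀ a, |ext B B.F (ev B (y a)) w| ≤ 1 := fun a =>
      abs_ext_le B _ _ zero_le_one (fun γ _ => (abs_ev_le B _ γ).trans (hy1 a)) w
    simp only [h, Pi.add_apply, Pi.sub_apply]
    have e0 := abs_le.1 (h3 (b 0))
    have e1 := abs_le.1 (h3 (b 1))
    have e2 := abs_le.1 (h3 (b 2))
    have e3 := abs_le.1 (h3 (b 3))
    have e4 := abs_le.1 (h3 (b 4))
    have e5 := abs_le.1 (h3 (b 5))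
    rw [abs_le]
    constructor <;> linarith
  have hsum : ∀ w, |(ev B x1 + (1 / 6 : ℝ) • h) w| ≤ 1 := by
    intro w
    apply abs_le_of_dfct B (L := B.F ∪ {γ0}) zero_le_one
    · intro γ hγ
      rw [Pi.add_apply, Pi.smul_apply, smul_eq_mul]
      rcases hγ with hγ | hγ
      · rw [hx1F γ hγ, zero_add, abs_mul]
        have h3 := hh6 γ
        have h4 : |(1 / 6 : ℝ)| = 1 / 6 := abs_of_pos (by norm_num)
        rw [h4]
        linarith
      · rw [Set.mem_singleton_iff] at hγ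
        rw [hγ, hx1γ]
        have h3 := hhd γ0 hγF
        rw [dfct_apply, hγt, LinearMap.zero_apply, sub_zero] at h3
        rw [h3]
        norm_num
    · intro γ hγ
      rw [map_add, map_smul, Pi.add_apply, Pi.smul_apply, hx1d γ hγ,
        hhd γ (fun h3 => hγ (Or.inl h3)), smul_zero, add_zero]
  have h3 : ‖x1 + (1 / 6 : ℝ) •
      ((y (b 0) - y (b 1)) + (y (b 2) - y (b 3)) + (y (b 4) - y (b 5)))‖ ≤ 1 + 4 / 6 := by
    apply norm_le B (by norm_num)
    intro w
    rw [ev_add, ev_smul, ev_add, ev_add, ev_sub, ev_sub, ev_sub]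
    have h4 : (ev B x1 + (1 / 6 : ℝ) • (ev B (y (b 0)) - ev B (y (b 1)) +
        (ev B (y (b 2)) - ev B (y (b 3))) + (ev B (y (b 4)) - ev B (y (b 5))))) w =
        (ev B x1 + (1 / 6 : ℝ) • h) w + (1 / 6 : ℝ) *
        ((v (b 0) - v (b 1)) + (v (b 2) - v (b 3)) + (v (b 4) - v (b 5))) w := by
      have h5 := hu w
      rw [Pi.add_apply, Pi.add_apply, Pi.smul_apply, Pi.smul_apply, smul_eq_mul, smul_eq_mul]
      change ev B x1 w + 1 / 6 * u w = _
      rw [h5]
      ring
    rw [h4]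
    have h6 := abs_le.1 (hsum w)
    have h7 := abs_le.1 (hest w)
    rw [abs_le]
    constructor <;> linarith
  linarith

end Pool.Agent.R278.UD
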