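import Pool.Agent.R278.UD.Ext
import Pool.Agent.Helper669.KDelta

/-!
# The Banach space of bounded functions with few defects
-/

open Set Cardinal Filter Topology
open scoped ENNReal

namespace Pool.Agent.R278.UD

open Pool.Agent.Helper669.KDelta

universe u

/-- Bounded real functions on `W`. -/
abbrev Linf (W : Type u) := lp (fun _ : W => ℝ) ∞

variable {W : Type u}

theorem linf_mem {f : W → ℝ} {C : ℝ} (h : ∀ w, |f w| ≤ C) : Memℓp (E := fun _ : W => ℝ) f ∞ := by
  apply memℓp_infty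
  refine ⟨C, ?_⟩
  rintro _ ⟨w, rfl⟩
  exact h w

theorem linf_norm_le {f : Linf W} {C : ℝ} (hC : 0 ≤ C) (h : ∀ w, |f w| ≤ C) : ‖f‖ ≤ C :=
  lp.norm_le_of_forall_le hC h

theorem abs_le_linf_norm (f : Linf W) (w : W) : |f w| ≤ ‖f‖ :=
  lp.norm_apply_le_norm ENNReal.top_ne_zero f w

variable {O I : Type u} [LinearOrder O] (B : Book O I W)

/-- The coordinates, not free, where the defect does not vanish. -/
def dset (f : W → ℝ) : Set W := {γ | γ ∉ B.F ∧ dfct B f γ ≠ 0}

theorem dset_add_subset (f g : W → ℝ) : dset B (f + g) ⊆ dset B f ∪ dset B g := by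
  rintro γ ⟨h1, h2⟩
  by_contra hcon
  rw [Set.mem_union, not_or] at hcon
  apply h2
  have h3 : dfct B f γ = 0 := by
    by_contra h
    exact hcon.1 ⟨h1, h⟩
  have h4 : dfct B g γ = 0 := by
    by_contra h
    exact hcon.2 ⟨h1, h⟩
  rw [map_add, Pi.add_apply, h3, h4, add_zero]

theorem dset_smul_subset (c : ℝ) (f : W → ℝ) : dset B (c • f) ⊆ dset B f := by
  rintro γ ⟨h1, h2⟩
  refine ⟨h1, fun h => h2 ?_⟩
  rw [map_smul, Pi.smul_apply, h, smul_zero]

theorem dset_zero : dset B (0 : W → ℝ) = ∅ := by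
  ext γ
  simp [dset]

theorem dset_sub_subset (f g : W → ℝ) : dset B (f - g) ⊆ dset B f ∪ dset B g := by
  have h : f - g = f + (-1 : ℝ) • g := by
    rw [neg_one_smul, sub_eq_add_neg]
  rw [h]
  exact (dset_add_subset B _ _).trans (Set.union_subset_union_right _ (dset_smul_subset B _ _))

theorem abs_dfct_le (f : Linf W) (γ : W) : |dfct B f γ| ≤ 2 * ‖f‖ := by
  rw [dfct_apply]
  have h1 := abs_le_linf_norm f γ
  have h2 := B.bd γ (fun n => f (B.s γ n)) ‖f‖ (fun n => abs_le_linf_norm f _)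
  calc |f γ - B.t γ (fun n => f (B.s γ n))| ≤ |f γ| + |B.t γ (fun n => f (B.s γ n))| :=
        abs_sub _ _
    _ ≤ 2 * ‖f‖ := by linarith

variable [Infinite I]

/-- The bounded functions with at most `#I` defects off the free coordinates. -/
noncomputable def XS : Submodule ℝ (Linf W) where
  carrier := {f | #(dset B f) ≤ #I}
  add_mem' := by
    intro x y hx hy
    have h : (((x + y : Linf W)) : W → ℝ) = (x : W → ℝ) + (y : W → ℝ) := lp.coeFn_add x y
    rw [Set.mem_ofPred_eq, h]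
    exact small_mono (dset_add_subset B _ _) (small_union (Cardinal.aleph0_le_mk I) hx hy)
  zero_mem' := by
    have h : ((0 : Linf W) : W → ℝ) = 0 := lp.coeFn_zero _ _
    rw [Set.mem_ofPred_eq, h, dset_zero]
    simp
  smul_mem' := by
    intro c x hx
    have h : (((c • x : Linf W)) : W → ℝ) = c • (x : W → ℝ) := lp.coeFn_smul c x
    rw [Set.mem_ofPred_eq, h]
    exact small_mono (dset_smul_subset B _ _) hx

theorem mem_XS {f : Linf W} : f ∈ XS B ↔ #(dset B f) ≤ #I := Iff.rfl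

theorem isClosed_XS : IsClosed (XS B : Set (Linf W)) := by
  rw [← isSeqClosed_iff_isClosed]
  intro x y hx hy
  rw [SetLike.mem_coe, mem_XS]
  have hsub : dset B y ⊆ ⋃ n : ULift.{u} ℕ, dset B (x n.down) := by
    rintro γ ⟨h1, h2⟩
    by_contra hcon
    rw [Set.mem_iUnion, not_exists] at hcon
    apply h2
    have h3 : ∀ n, |dfct B y γ| ≤ 2 * ‖y - x n‖ := by
      intro n
      have h4 := abs_dfct_le B (y - x n) γ
      have h5 : ((y - x n : Linf W) : W → ℝ) = (y : W → ℝ) - (x n : W → ℝ) := lp.coeFn_sub y (x n)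
      rw [h5, map_sub, Pi.sub_apply] at h4
      have h6 : dfct B (x n) γ = 0 := by
        by_contra h
        exact hcon ⟨n⟩ ⟨h1, h⟩
      rwa [h6, sub_zero] at h4
    have h7 : Tendsto (fun n => 2 * ‖y - x n‖) atTop (𝓝 0) := by
      have : Tendsto (fun n => y - x n) atTop (𝓝 (y - y)) := tendsto_const_nhds.sub hy
      rw [sub_self] at this
      simpa using (this.norm).const_mul 2
    have h8 : |dfct B y γ| ≤ 0 := ge_of_tendsto' h7 h3
    exact abs_eq_zero.1 (le_antisymm h8 (abs_nonneg _))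
  refine small_mono hsub (small_iUnion (Cardinal.aleph0_le_mk I) ?_ _ (fun n => hx n.down))
  rw [Cardinal.mk_uLift, Cardinal.mk_nat, Cardinal.lift_aleph0]
  exact Cardinal.aleph0_le_mk I

instance : CompleteSpace (XS B) := (isClosed_XS B).completeSpace_coe

/-- An element of the space given by a bounded function. -/
noncomputable def mkX (f : W → ℝ) {C : ℝ} (h : ∀ w, |f w| ≤ C) (hd : #(dset B f) ≤ #I) : XS B :=
  ⟨⟨f, linf_mem h⟩, hd⟩

theorem mkX_coe (f : W → ℝ) {C : ℝ} (h : ∀ w, |f w| ≤ C) (hd : #(dset B f) ≤ #I) :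
    (((mkX B f h hd : XS B) : Linf W) : W → ℝ) = f := rfl

/-- Evaluation. -/
noncomputable def ev (x : XS B) (w : W) : ℝ := (x : Linf W) w

theorem ev_mkX (f : W → ℝ) {C : ℝ} (h : ∀ w, |f w| ≤ C) (hd : #(dset B f) ≤ #I) :
    ev B (mkX B f h hd) = f := rfl

theorem ev_add (x y : XS B) : ev B (x + y) = ev B x + ev B y := by
  funext w
  change ((x + y : XS B) : Linf W) w = _
  rw [Submodule.coe_add, lp.coeFn_add]
  rfl

theorem ev_sub (x y : XS B) : ev B (x - y) = ev B x - ev B y := by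
  funext w
  change ((x - y : XS B) : Linf W) w = _
  rw [Submodule.coe_sub, lp.coeFn_sub]
  rfl

theorem ev_smul (c : ℝ) (x : XS B) : ev B (c • x) = c • ev B x := by
  funext w
  change ((c • x : XS B) : Linf W) w = _
  rw [Submodule.coe_smul, lp.coeFn_smul]
  rfl

theorem ev_inj {x y : XS B} (h : ev B x = ev B y) : x = y := by
  apply Subtype.ext
  apply lp.ext
  exact h

theorem norm_le {x : XS B} {C : ℝ} (hC : 0 ≤ C) (h : ∀ w, |ev B x w| ≤ C) : ‖x‖ ≤ C :=
  linf_norm_le (f := (x : Linf W)) hC h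

theorem abs_ev_le (x : XS B) (w : W) : |ev B x w| ≤ ‖x‖ := abs_le_linf_norm (x : Linf W) w

theorem dset_ev (x : XS B) : #(dset B (ev B x)) ≤ #I := x.2

end Pool.Agent.R278.UD
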